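import Pool.Agent.Helper69.TPF.St1

/-!
Project TPF (MP_2b710e_gt), module FML: the key formula.
-/

set_option autoImplicit false

open scoped commutatorElement ComplexConjugate

namespace Pool.Agent.Helper89.TPF

open Pool.Agent.Helper69.TPF MonoidAlgebra

variable {E G : Type} [Group E] [Group G]

/-- Expansion in group elements. -/
theorem expand [Fintype E] (z : AA E) : z = ∑ x : E, z.coeff x • (single x (1 : ℂ) : AA E) := by
  classical
  apply MonoidAlgebra.coeff_injective
  rw [MonoidAlgebra.coeff_sum]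
  ext y
  rw [Finsupp.finset_sum_apply]
  simp only [MonoidAlgebra.coeff_smul, MonoidAlgebra.coeff_single, Finsupp.smul_apply,
    Finsupp.single_apply, smul_eq_mul]
  simp

/-- An element supported in the kernel commutes with everything that commutes with the kernel. -/
theorem comm_of_supp [Fintype E] (π : E →* G) (α z : AA E) (hα : ∀ x, α.coeff x ≠ 0 → π x = 1)
    (hz : ∀ v, π v = 1 → (single v 1 : AA E) * z = z * single v 1) : α * z = z * α := by
  rw [expand α, Finset.sum_mul, Finset.mul_sum]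
  refine Finset.sum_congr rfl fun x _ => ?_
  by_cases h : α.coeff x = 0
  · rw [h, zero_smul, zero_mul, mul_zero]
  · rw [smul_mul_assoc, mul_smul_comm, hz x (hα x h)]

theorem coeff_sg_mul (y x : E) (w : AA E) : ((single y 1 : AA E) * w).coeff (y * x) = w.coeff x := by
  rw [MonoidAlgebra.coeff_single_mul_eq_mul_coeff x, one_mul]
  intro m' _
  exact mul_right_inj y

theorem coeff_mul_sg (y x : E) (w : AA E) : (w * (single y 1 : AA E)).coeff (x * y) = w.coeff x := by
  rw [MonoidAlgebra.coeff_mul_single_eq_coeff_mul x, mul_one]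
  intro m' _
  exact mul_left_inj y

/-- The average over the kernel. -/
noncomputable def Av [Fintype E] (π : E →* G) (y : E) : AA E :=
  haveI := Classical.dec
  ∑ v : E, if π v = 1 then (single (v * y * v⁻¹) 1 : AA E) else 0

theorem Av_CC [Fintype E] (π : E →* G) (y : E) : CC π (π y) (Av π y) := by
  classical
  constructor
  · intro x hx
    unfold Av at hx
    rw [MonoidAlgebra.coeff_sum, Finsupp.finset_sum_apply] at hx
    obtain ⟨v, -, hv⟩ := Finset.exists_ne_zero_of_sum_ne_zero hx
    by_cases h : π v = 1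
    · rw [if_pos h, MonoidAlgebra.coeff_single, Finsupp.single_apply] at hv
      by_cases h2 : v * y * v⁻¹ = x
      · rw [← h2, map_mul, map_mul, map_inv, h]
        simp
      · rw [if_neg h2] at hv
        exact absurd rfl hv
    · rw [if_neg h] at hv
      exact absurd (by simp) hv
  · intro v hv
    unfold Av
    rw [Finset.mul_sum, Finset.sum_mul]
    rw [← Equiv.sum_comp (Equiv.mulLeft v) (fun u => (if π u = 1 then (single (u * y * u⁻¹) 1 : AA E)
      else 0) * single v 1)]
    refine Finset.sum_congr rfl fun u _ => ?_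
    have h1 : π (v * u) = π u := by rw [map_mul, hv, one_mul]
    simp only [Equiv.coe_mulLeft, h1]
    by_cases h : π u = 1
    · rw [if_pos h, if_pos h, MonoidAlgebra.single_mul_single, MonoidAlgebra.single_mul_single]
      congr 1
      group
    · rw [if_neg h, if_neg h, mul_zero, zero_mul]

theorem cab_eq [Fintype E] (π : E →* G) (a b : G) (x₀ : E) (hx₀ : π x₀ = a) :
    Cab π a b = ∑ y : E, haveI := Classical.dec; if π y = b then
      (single x₀ 1 : AA E) * Av π y * single x₀⁻¹ 1 * single y⁻¹ 1 else 0 := by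
  classical
  unfold Cab
  rw [Finset.sum_comm]
  refine Finset.sum_congr rfl fun y _ => ?_
  by_cases hy : π y = b
  · rw [if_pos hy]
    unfold Av
    rw [Finset.mul_sum, Finset.sum_mul, Finset.sum_mul]
    rw [← Equiv.sum_comp (Equiv.mulLeft x₀)]
    refine Finset.sum_congr rfl fun v _ => ?_
    have h1 : π (x₀ * v) = a ↔ π v = 1 := by
      rw [map_mul, hx₀]
      simp
    simp only [Equiv.coe_mulLeft]
    by_cases h : π v = 1
    · rw [if_pos ⟨h1.2 h, hy⟩, if_pos h, MonoidAlgebra.single_mul_single,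
        MonoidAlgebra.single_mul_single, MonoidAlgebra.single_mul_single]
      rw [mul_one, mul_one, commutatorElement_def]
      congr 1
      group
    · rw [if_neg (fun h2 => h (h1.1 h2.1)), if_neg h, mul_zero, zero_mul, zero_mul]
  · rw [if_neg hy]
    refine Finset.sum_eq_zero fun x _ => ?_
    rw [if_neg (fun h => hy h.2)]

theorem coeff_conj (π : E →* G) (h : G) (w : AA E) (hw : CC π h w) (v x : E) (hv : π v = 1) :
    w.coeff (v * x * v⁻¹) = w.coeff x := by
  have h1 := hw.2 v hv
  have h2 := coeff_sg_mul v x w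
  have h3 := coeff_mul_sg v (v * x * v⁻¹) w
  rw [inv_mul_cancel_right] at h3
  rw [← h3, ← h2, h1]

theorem tau_sum {ι : Type} (s : Finset ι) (f : ι → AA E) : tau (∑ i ∈ s, f i) = ∑ i ∈ s, tau (f i) := by
  unfold tau
  rw [MonoidAlgebra.coeff_sum, Finsupp.finset_sum_apply]

theorem tau_smul (c : ℂ) (z : AA E) : tau (c • z) = c * tau z := by
  unfold tau
  rw [MonoidAlgebra.coeff_smul, Finsupp.smul_apply, smul_eq_mul]

theorem card_ker [Fintype E] (π : E →* G) (c : ℂ) :
    (∑ v : E, haveI := Classical.dec; if π v = 1 then c else 0) = (Nat.card π.ker : ℂ) * c := by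
  classical
  rw [← Finset.sum_filter, Finset.sum_const, nsmul_eq_mul]
  congr 2
  rw [Nat.card_eq_fintype_card]
  symm
  refine Fintype.card_of_subtype _ ?_
  intro x
  simp [MonoidHom.mem_ker]

theorem tau_Av [Fintype E] (π : E →* G) (h : G) (w : AA E) (hw : CC π h w) (y : E) :
    tau (Av π y * w) = (Nat.card π.ker : ℂ) * w.coeff y⁻¹ := by
  classical
  rw [← card_ker π]
  unfold Av
  rw [Finset.sum_mul, tau_sum]
  refine Finset.sum_congr rfl fun v _ => ?_
  by_cases hv : π v = 1
  · rw [if_pos hv, if_pos hv]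
    unfold tau
    have h1 := coeff_sg_mul (v * y * v⁻¹) (v * y * v⁻¹)⁻¹ w
    rw [mul_inv_cancel] at h1
    rw [h1]
    have h2 : (v * y * v⁻¹)⁻¹ = v * y⁻¹ * v⁻¹ := by group
    rw [h2]
    exact coeff_conj π h w hw v y⁻¹ hv
  · rw [if_neg hv, if_neg hv, zero_mul]
    simp [tau]

theorem cFML (adj : St_ADJ) (grd : St_GRD) (inv : St_INV) : St_FML := by
  classical
  intro E G _ _ _ π e he a b wa wa' wb wb' hwa hwa' hea hwb hwb' heb
  obtain ⟨-, -, -, -, -, -, -, htr, -⟩ := adj E G π
  obtain ⟨-, hte, hinv⟩ := inv E G π e he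
  obtain ⟨heCC, -, he0, -⟩ := he
  obtain ⟨a1, a2, a3, a4, a5, a6⟩ := hea
  obtain ⟨b1, b2, b3, b4, b5, b6⟩ := heb
  -- a group element over `a`
  have hwa0 : wa ≠ 0 := by
    rintro rfl
    rw [zero_mul] at a5
    exact he0 a5.symm
  have hwb0 : wb ≠ 0 := by
    rintro rfl
    rw [zero_mul] at b5
    exact he0 b5.symm
  obtain ⟨x₀, hx₀⟩ : ∃ x₀, wa.coeff x₀ ≠ 0 := by
    by_contra hc
    push Not at hc
    apply hwa0
    apply MonoidAlgebra.coeff_injective
    ext x
    simpa using hc x
  have hπx : π x₀ = a := hwa.1 x₀ hx₀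
  have hXX : (single x₀⁻¹ 1 : AA E) * single x₀ 1 = 1 := by
    rw [MonoidAlgebra.single_mul_single, inv_mul_cancel, one_mul]
    rfl
  -- commutation with conjugates
  have hcomm : ∀ z : AA E, (∀ v, π v = 1 → (single v 1 : AA E) * z = z * single v 1) →
      ∀ v, π v = 1 → (single v 1 : AA E) * ((single x₀ 1 : AA E) * z * single x₀⁻¹ 1) =
        ((single x₀ 1 : AA E) * z * single x₀⁻¹ 1) * single v 1 := by
    intro z hz v hv
    have h1 : π (x₀⁻¹ * v * x₀) = 1 := by
      rw [map_mul, map_mul, hv, mul_one, map_inv, inv_mul_cancel]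
    have h2 : (single v 1 : AA E) * single x₀ 1 = single x₀ 1 * single (x₀⁻¹ * v * x₀) 1 := by
      rw [MonoidAlgebra.single_mul_single, MonoidAlgebra.single_mul_single]
      congr 1
      group
    have h3 : (single (x₀⁻¹ * v * x₀) 1 : AA E) * single x₀⁻¹ 1 = single x₀⁻¹ 1 * single v 1 := by
      rw [MonoidAlgebra.single_mul_single, MonoidAlgebra.single_mul_single]
      congr 1
      group
    calc (single v 1 : AA E) * ((single x₀ 1 : AA E) * z * single x₀⁻¹ 1)
        = ((single v 1 : AA E) * single x₀ 1) * z * single x₀⁻¹ 1 := by noncomm_ring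
      _ = (single x₀ 1 : AA E) * (single (x₀⁻¹ * v * x₀) 1 * z) * single x₀⁻¹ 1 := by
          rw [h2]; noncomm_ring
      _ = (single x₀ 1 : AA E) * z * (single (x₀⁻¹ * v * x₀) 1 * single x₀⁻¹ 1) := by
          rw [hz _ h1]; noncomm_ring
      _ = _ := by rw [h3]; noncomm_ring
  have hkey : ∀ z : AA E, (∀ v, π v = 1 → (single v 1 : AA E) * z = z * single v 1) →
      wa * z * wa' = (single x₀ 1 : AA E) * z * single x₀⁻¹ 1 * e := by
    intro z hz
    have hα : (wa * single x₀⁻¹ 1) * ((single x₀ 1 : AA E) * z * single x₀⁻¹ 1) =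
        ((single x₀ 1 : AA E) * z * single x₀⁻¹ 1) * (wa * single x₀⁻¹ 1) := by
      refine comm_of_supp π _ _ ?_ (hcomm z hz)
      intro u hu
      have h1 := coeff_mul_sg x₀⁻¹ (u * x₀) wa
      rw [mul_inv_cancel_right] at h1
      rw [h1] at hu
      have h2 := hwa.1 _ hu
      rw [map_mul, hπx] at h2
      simpa using h2
    have h1 : wa * z = ((single x₀ 1 : AA E) * z * single x₀⁻¹ 1) * wa := by
      calc wa * z = wa * (single x₀⁻¹ 1 * single x₀ 1) * z * (single x₀⁻¹ 1 * single x₀ 1) := by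
            rw [hXX, mul_one, mul_one]
        _ = ((wa * single x₀⁻¹ 1) * ((single x₀ 1 : AA E) * z * single x₀⁻¹ 1)) * single x₀ 1 := by
            noncomm_ring
        _ = ((single x₀ 1 : AA E) * z * single x₀⁻¹ 1) * wa * (single x₀⁻¹ 1 * single x₀ 1) := by
            rw [hα]; noncomm_ring
        _ = _ := by rw [hXX, mul_one]
    rw [h1, mul_assoc, a5]
  have hecomm : ∀ z : AA E, (∀ v, π v = 1 → (single v 1 : AA E) * z = z * single v 1) →
      e * ((single x₀ 1 : AA E) * z * single x₀⁻¹ 1) =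
        ((single x₀ 1 : AA E) * z * single x₀⁻¹ 1) * e := fun z hz =>
    comm_of_supp π _ _ heCC.1 (hcomm z hz)
  -- the coefficients
  have hcoef : ∀ y, π y = b → e * Av π y =
      (((Nat.card π.ker : ℂ) * wb'.coeff y⁻¹) / tau e) • wb := by
    intro y hy
    have hA : CC π b (Av π y) := hy ▸ Av_CC π y
    obtain ⟨-, h2⟩ := hinv b wb hwb (by rw [b1]; exact hwb0)
    obtain ⟨c, hc⟩ := h2 _ hA
    rw [b1] at hc
    have h3 : tau (e * Av π y * wb') = c * tau e := by
      rw [hc, smul_mul_assoc, b5, tau_smul]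
    have h4 : tau (e * Av π y * wb') = (Nat.card π.ker : ℂ) * wb'.coeff y⁻¹ := by
      rw [mul_assoc, htr, mul_assoc, b4]
      exact tau_Av π _ wb' hwb' y
    rw [hc]
    congr 1
    rw [eq_div_iff hte, ← h3, h4]
  -- the sum
  rw [cab_eq π a b x₀ hπx, Finset.mul_sum]
  have hterm : ∀ y : E, e * (if π y = b then
      (single x₀ 1 : AA E) * Av π y * single x₀⁻¹ 1 * single y⁻¹ 1 else 0) =
      ((Nat.card π.ker : ℂ) / tau e) • (wa * wb * wa' * (wb'.coeff y⁻¹ • single y⁻¹ 1)) := by
    intro y
    by_cases hy : π y = b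
    · have hA : CC π b (Av π y) := hy ▸ Av_CC π y
      rw [if_pos hy]
      calc e * ((single x₀ 1 : AA E) * Av π y * single x₀⁻¹ 1 * single y⁻¹ 1)
          = (e * ((single x₀ 1 : AA E) * Av π y * single x₀⁻¹ 1)) * single y⁻¹ 1 := by
            simp only [mul_assoc]
        _ = (wa * Av π y * wa') * single y⁻¹ 1 := by rw [hecomm _ hA.2, hkey _ hA.2]
        _ = ((wa * e) * Av π y * wa') * single y⁻¹ 1 := by rw [a2]
        _ = (wa * (e * Av π y) * wa') * single y⁻¹ 1 := by rw [mul_assoc wa e]
        _ = _ := by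
          rw [hcoef y hy]
          simp only [mul_smul_comm, smul_mul_assoc, smul_smul]
          congr 1
          ring
    · have h1 : wb'.coeff y⁻¹ = 0 := by
        by_contra hc
        have h2 := hwb'.1 _ hc
        rw [map_inv] at h2
        exact hy (inv_injective h2)
      rw [if_neg hy, h1, zero_smul, mul_zero, mul_zero, smul_zero]
  rw [Finset.sum_congr rfl fun y _ => hterm y, ← Finset.smul_sum, ← Finset.mul_sum]
  have hlast : ∑ y : E, wb'.coeff y⁻¹ • (single y⁻¹ (1 : ℂ) : AA E) = wb' := by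
    have h1 := Equiv.sum_comp (Equiv.inv E) (fun x => wb'.coeff x • (single x (1 : ℂ) : AA E))
    exact h1.trans (expand wb').symm
  rw [hlast]

end Pool.Agent.Helper89.TPF
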